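import Pool.Agent.K4W.StmtsF

set_option autoImplicit false

/-! Row COV of the squad K4W: the covering of the exceptional set by bad cells. -/

namespace Pool.Agent.K4W.H64

open Pool.Agent.Helper69_Weyl (ee W)
open Pool.Agent.VM (Nr)

theorem isUnit_four_mul {r : ℕ} {b : ℤ} (hr : Odd r) (hb : Int.gcd b (r : ℤ) = 1) :
    IsUnit ((4 * b : ℤ) : ZMod r) := by
  have h4 : IsCoprime (4 : ℤ) (r : ℤ) := by
    have h1 : Nat.Coprime 4 r := by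
      have h2 : Nat.Coprime (2 ^ 2) r := Nat.Coprime.pow_left 2 (Nat.coprime_two_left.2 hr)
      exact h2
    exact_mod_cast Nat.isCoprime_iff_coprime.2 h1
  have hb' : IsCoprime b (r : ℤ) := Int.isCoprime_iff_gcd_eq_one.2 hb
  obtain ⟨x, y, hxy⟩ := h4.mul_left hb'
  have h5 : ((x : ℤ) : ZMod r) * ((4 * b : ℤ) : ZMod r) = 1 := by
    have h6 := congrArg (fun z : ℤ => (z : ZMod r)) hxy
    push_cast at h6
    push_cast
    rw [ZMod.natCast_self, mul_zero, add_zero] at h6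
    exact h6
  exact IsUnit.of_mul_eq_one (x : ZMod r) (by rw [mul_comm]; exact h5)

/-- Row COV -/
theorem cov (rdh : RdhStmt) (crn : CrnStmt) (lpz : LpzStmt) (pfz : PfzStmt) : CovStmt := by
  obtain ⟨Z₁, hlpz⟩ := lpz
  obtain ⟨Z₂, hpfz⟩ := pfz
  refine ⟨max 2 (max Z₁ Z₂), ?_⟩
  intro Z hZ N t S Ψ B H ψ hSz hS hΨ hB h1 h2 hψ hbig
  have hZ2 : 2 ≤ Z := (le_max_left _ _).trans hZ
  have hZ1 : Z₁ ≤ Z := (le_max_left _ _).trans ((le_max_right _ _).trans hZ)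
  have hZ3 : Z₂ ≤ Z := (le_max_right _ _).trans ((le_max_right _ _).trans hZ)
  have hZpos : 0 < Z := by omega
  obtain ⟨r, b, hodd, hrN, hr2, hgcd, hβ1, hβ2⟩ := rdh Z N t H hZ2 hSz h1 h2
  have hr : 0 < r := hodd.pos
  have hr0 : (r : ℝ) ≠ 0 := by exact_mod_cast hr.ne'
  obtain ⟨β, hβ⟩ : ∃ β : ℝ, β = 48 * t * (H : ℝ) - (b : ℝ) / (r : ℝ) := ⟨_, rfl⟩
  rw [← hβ] at hβ1 hβ2
  obtain ⟨P, hP⟩ : ∃ P : ℝ, P = (Z : ℝ) ^ 130216 := ⟨_, rfl⟩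
  have hP0 : 0 < P := by
    rw [hP]
    exact pow_pos (by exact_mod_cast hZpos) _
  have hParR : ParR Z N r b β := (crn Z N r b β β hZ2 hSz hodd hrN hr2 hgcd hβ1 hβ2 (by
    rw [sub_self, abs_zero, ← hP]
    positivity)).1
  -- the inverse of `4 b`
  have : NeZero r := ⟨hr.ne'⟩
  have hu4 := isUnit_four_mul hodd hgcd
  obtain ⟨u, hu⟩ : ∃ u : ℕ, u = ((((4 * b : ℤ) : ZMod r))⁻¹).val := ⟨_, rfl⟩
  have hur : u < r := by
    rw [hu]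
    exact ZMod.val_lt _
  have hucast : (u : ZMod r) = (((4 * b : ℤ) : ZMod r))⁻¹ := by
    rw [hu]
    exact ZMod.natCast_zmod_val _
  have hmul : ((4 * b : ℤ) : ZMod r) * (u : ZMod r) = 1 := by
    rw [hucast]
    exact ZMod.mul_inv_of_unit _ hu4
  have hdvd : (r : ℤ) ∣ 4 * b * (u : ℤ) - 1 := by
    rw [← ZMod.intCast_zmod_eq_zero_iff_dvd]
    push_cast
    push_cast at hmul
    rw [hmul, sub_self]
  -- the inverses of the primes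
  have hv : ∀ μ ∈ S, ¬ μ ∣ r → (r : ℤ) ∣ (μ : ℤ) * vv r μ - 1 := by
    intro μ hμ hμr
    have hc : Nat.Coprime μ r := (Nat.Prime.coprime_iff_not_dvd (hS.2 μ hμ).1).2 hμr
    rw [← ZMod.intCast_zmod_eq_zero_iff_dvd]
    unfold vv
    push_cast
    rw [ZMod.natCast_zmod_val, ZMod.coe_mul_inv_eq_one μ hc, sub_self]
  have hmain := hpfz Z N r S ψ (vv r) β b (u : ℤ) hZ3
    (lt_of_lt_of_le (pow_pos hZpos _) hSz.1) hSz.2 hS hParR (hΨ ψ hψ) hdvd hv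
  have hsum : ∑ μ ∈ S, ψ μ * th N ((μ : ℝ) * ((b : ℝ) / (r : ℝ) + β)) =
      ∑ μ ∈ S, ψ μ * th N (48 * t * (μ : ℝ) * (H : ℝ)) := by
    refine Finset.sum_congr rfl fun μ _ => ?_
    have h3 : (μ : ℝ) * ((b : ℝ) / (r : ℝ) + β) = 48 * t * (μ : ℝ) * (H : ℝ) := by
      rw [hβ]
      ring
    rw [h3]
  rw [hsum] at hmain
  -- the corner of the cell
  obtain ⟨j, hj⟩ : ∃ j : ℤ, j = ⌊β * P⌋ := ⟨_, rfl⟩
  have hj1 : (j : ℝ) ≤ β * P := by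
    rw [hj]
    exact Int.floor_le _
  have hj2 : β * P < (j : ℝ) + 1 := by
    rw [hj]
    exact Int.lt_floor_add_one _
  have hdiff : |β - (j : ℝ) / P| ≤ 1 / P := by
    have h3 : β - (j : ℝ) / P = (β * P - j) / P := by
      field_simp
    rw [h3, abs_div, abs_of_pos hP0]
    refine div_le_div_of_nonneg_right ?_ hP0.le
    rw [abs_le]
    constructor <;> linarith
  have hParR' : ParR Z N r 1 ((j : ℝ) / (Z : ℝ) ^ 130216) :=
    (crn Z N r b β _ hZ2 hSz hodd hrN hr2 hgcd hβ1 hβ2 (by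
      rw [← hP]
      exact hdiff)).2
  have hlip := hlpz Z hZ1 N r S ψ (vv r) (u : ℤ) β ((j : ℝ) / (Z : ℝ) ^ 130216) hSz hS hodd hrN
    (hΨ ψ hψ) (by
      rw [← hP]
      exact hdiff)
  have hlow : (S.card : ℝ) * (Z : ℝ) ^ 31917 ≤
      ‖PS N r (Z ^ 1085) S ψ (vv r) ((j : ℝ) / (Z : ℝ) ^ 130216) (u : ℤ)‖ := by
    have h3 := norm_le_insert' (PS N r (Z ^ 1085) S ψ (vv r) β (u : ℤ))
      (PS N r (Z ^ 1085) S ψ (vv r) ((j : ℝ) / (Z : ℝ) ^ 130216) (u : ℤ))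
    obtain ⟨Q, hQ⟩ : ∃ Q : ℝ, Q = (Z : ℝ) ^ 31917 := ⟨_, rfl⟩
    have hQ0 : 0 ≤ Q := by
      rw [hQ]
      exact pow_nonneg (Nat.cast_nonneg Z) _
    have e1 : (Z : ℝ) ^ 31918 = Q * Z := by
      rw [hQ, ← pow_succ]
    have e2 : (Z : ℝ) ^ 31920 = Q * (Z : ℝ) ^ 3 := by
      rw [hQ, ← pow_add]
    rw [← hQ] at hlip ⊢
    rw [e1] at hmain
    rw [e2] at hbig
    have hZR : (2 : ℝ) ≤ (Z : ℝ) := by exact_mod_cast hZ2
    have hs : (0 : ℝ) ≤ (S.card : ℝ) := Nat.cast_nonneg _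
    have h4 : (0 : ℝ) ≤ (Z : ℝ) ^ 3 - Z - 2 := by nlinarith [mul_nonneg (sub_nonneg.2 hZR) (sub_nonneg.2 hZR)]
    have h5 := mul_nonneg (mul_nonneg hs hQ0) h4
    nlinarith
  refine ⟨(r, j, ψ, u), hB r j ψ u hψ hur hParR' hlow, ?_⟩
  -- the center of the cell
  have hbb : ∃ k : ℤ, (bb r u : ℝ) = (b : ℝ) + (r : ℝ) * (k : ℝ) := by
    have h3 : (4 * (u : ZMod r))⁻¹ = (b : ZMod r) := by
      apply ZMod.inv_eq_of_mul_eq_one
      push_cast at hmul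
      rw [mul_right_comm]
      exact hmul
    have h4 : (r : ℤ) ∣ bb r u - b := by
      rw [← ZMod.intCast_zmod_eq_zero_iff_dvd]
      unfold bb
      push_cast
      rw [ZMod.natCast_zmod_val, h3, sub_self]
    obtain ⟨k, hk⟩ := h4
    refine ⟨k, ?_⟩
    have h5 : bb r u = b + (r : ℤ) * k := by linarith
    rw [h5]
    push_cast
    ring
  obtain ⟨k, hk⟩ := hbb
  refine ⟨-k, ?_⟩
  show |48 * t * (H : ℝ) - ((bb r u : ℝ) / (r : ℝ) + (j : ℝ) / (Z : ℝ) ^ 130216) -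
    ((-k : ℤ) : ℝ)| ≤ 1 / (Z : ℝ) ^ 130216
  rw [← hP, hk]
  have h3 : 48 * t * (H : ℝ) - (((b : ℝ) + (r : ℝ) * (k : ℝ)) / (r : ℝ) + (j : ℝ) / P) -
      ((-k : ℤ) : ℝ) = β - (j : ℝ) / P := by
    rw [hβ]
    push_cast
    field_simp
    ring
  rw [h3]
  exact hdiff

end Pool.Agent.K4W.H64
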