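import Pool.Agent.K4W.StmtsP

set_option autoImplicit false

/-! Row GAB of the squad K4W: the absolute value of the quadratic Gauss sum. -/

namespace Pool.Agent.K4W.H64

open Finset
open Pool.Agent.Helper69_Weyl (ee ee_add ee_int ee_neg norm_ee conj_ee ee_zero sum_ee_div)

theorem ee_cong' {r : ℕ} (hr : 0 < r) {x y : ℤ} (h : (r : ℤ) ∣ x - y) :
    ee ((x : ℝ) / (r : ℝ)) = ee ((y : ℝ) / (r : ℝ)) := by
  obtain ⟨t, ht⟩ := h
  have hr' : (r : ℝ) ≠ 0 := by exact_mod_cast hr.ne'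
  have h1 : (x : ℝ) / (r : ℝ) = (y : ℝ) / (r : ℝ) + (t : ℝ) := by
    have h2 : (x : ℝ) - y = r * t := by exact_mod_cast ht
    field_simp
    linarith
  rw [h1, ee_add, ee_int, mul_one]

/-- Row GAB -/
theorem gab (per : PerStmt) (csq : CsqStmt) : GabStmt := by
  intro r a m w hr hw
  have hr' : (r : ℝ) ≠ 0 := by exact_mod_cast hr.ne'
  rw [csq r a m w hr hw, norm_mul, norm_ee, one_mul]
  have hG : GS r a 0 = ∑ c ∈ range r, ee (((a * (c : ℤ) ^ 2 : ℤ) : ℝ) / (r : ℝ)) := by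
    unfold GS
    refine Finset.sum_congr rfl fun c _ => ?_
    rw [zero_mul, add_zero]
  have hconj : (starRingEnd ℂ) (GS r a 0) =
      ∑ d ∈ range r, ee (-(((a * (d : ℤ) ^ 2 : ℤ) : ℝ) / (r : ℝ))) := by
    rw [hG, map_sum]
    exact Finset.sum_congr rfl fun c _ => conj_ee _
  have hmul : GS r a 0 * (starRingEnd ℂ) (GS r a 0) = ∑ d ∈ range r, ∑ c ∈ range r,
      ee (((a * (c : ℤ) ^ 2 - a * (d : ℤ) ^ 2 : ℤ) : ℝ) / (r : ℝ)) := by
    rw [hconj, hG, Finset.sum_mul_sum, Finset.sum_comm]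
    refine Finset.sum_congr rfl fun d _ => Finset.sum_congr rfl fun c _ => ?_
    rw [← ee_add]
    congr 1
    push_cast
    ring
  have hper : ∀ d : ℕ, ∑ c ∈ range r,
      ee (((a * (c : ℤ) ^ 2 - a * (d : ℤ) ^ 2 : ℤ) : ℝ) / (r : ℝ)) =
      ∑ c ∈ range r, ee (((a * (c : ℤ) ^ 2 : ℤ) : ℝ) / (r : ℝ)) *
        ee ((d : ℝ) / (r : ℝ) * ((2 * a * (c : ℤ) : ℤ) : ℝ)) := by
    intro d
    have h := (per r hr (fun x => ee (((a * x ^ 2 - a * (d : ℤ) ^ 2 : ℤ) : ℝ) / (r : ℝ)))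
      (fun x => ee_cong' hr ⟨a * (2 * x + r), by ring⟩)).1 (d : ℤ)
    rw [← h]
    refine Finset.sum_congr rfl fun c _ => ?_
    rw [← ee_add]
    congr 1
    push_cast
    field_simp
    ring
  have hsq : GS r a 0 * (starRingEnd ℂ) (GS r a 0) = (r : ℂ) := by
    rw [hmul, Finset.sum_congr rfl fun d _ => hper d, Finset.sum_comm]
    have h1 : ∀ c ∈ range r, ∑ d ∈ range r, ee (((a * (c : ℤ) ^ 2 : ℤ) : ℝ) / (r : ℝ)) *
        ee ((d : ℝ) / (r : ℝ) * ((2 * a * (c : ℤ) : ℤ) : ℝ)) = if c = 0 then (r : ℂ) else 0 := by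
      intro c hc
      rw [← Finset.mul_sum, sum_ee_div r hr]
      by_cases h2 : c = 0
      · subst h2
        rw [if_pos rfl, if_pos (by simp)]
        have h3 : ((a * ((0 : ℕ) : ℤ) ^ 2 : ℤ) : ℝ) / (r : ℝ) = 0 := by simp
        rw [h3, ee_zero, one_mul]
      · rw [if_neg h2, if_neg, mul_zero]
        intro h3
        -- `r ∣ 2 a c` gives `r ∣ 4 a w c` and so `r ∣ c`
        have h4 : (r : ℤ) ∣ (c : ℤ) := by
          have h5 : (r : ℤ) ∣ 2 * w * (2 * a * (c : ℤ)) := Dvd.dvd.mul_left h3 _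
          have h6 : (r : ℤ) ∣ (4 * a * w - 1) * (c : ℤ) := Dvd.dvd.mul_right hw _
          have h7 := dvd_sub h5 h6
          have h8 : 2 * w * (2 * a * (c : ℤ)) - (4 * a * w - 1) * (c : ℤ) = (c : ℤ) := by ring
          rwa [h8] at h7
        have h5 : r ∣ c := by exact_mod_cast h4
        exact absurd (Nat.le_of_dvd (Nat.pos_of_ne_zero h2) h5) (not_le.2 (Finset.mem_range.1 hc))
    rw [Finset.sum_congr rfl h1, Finset.sum_ite_eq' (range r) 0 fun _ => (r : ℂ),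
      if_pos (Finset.mem_range.2 hr)]
  have hn : ‖GS r a 0‖ ^ 2 = (r : ℝ) := by
    rw [Complex.mul_conj, Complex.normSq_eq_norm_sq] at hsq
    exact_mod_cast hsq
  rw [← hn, Real.sqrt_sq (norm_nonneg _)]

end Pool.Agent.K4W.H64
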