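import Pool.Agent.K4W.StmtsM

set_option autoImplicit false

/-! Row MMN of the squad K4W: the moment of order `2 l` over the numerators. -/

namespace Pool.Agent.K4W.H64

open Finset
open Pool.Agent.Helper69_Weyl (ee W)

/-- Row MMN -/
theorem mmn (mex : MexStmt) (mtp : MtpStmt) (mct : MctStmt) : MmnStmt := by
  classical
  intro l r M P₀ S v a A₁ A₂ K hr hA hK hS hsize
  obtain ⟨X, hX⟩ : ∃ X : Finset (ℕ × ℤ), X = (S ×ˢ Finset.Icc (-(M : ℤ)) (M : ℤ)).filter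
      (fun x => ¬ (x.1 : ℤ) ∣ x.2) := ⟨_, rfl⟩
  have hmem : ∀ x : ℕ × ℤ, x ∈ X ↔ x.1 ∈ S ∧ x.2 ∈ Tm M x.1 := by
    intro x
    rw [hX, Finset.mem_filter, Finset.mem_product]
    unfold Tm
    rw [Finset.mem_filter]
    tauto
  have h1 : ∀ u : ℕ, ∑ x ∈ X, a x.1 x.2 *
      ee (-((((u : ℤ) * (v x.1 * x.2 ^ 2) : ℤ) : ℝ) / (r : ℝ))) =
      ∑ p ∈ S, ∑ m ∈ Tm M p, a p m * ee (-((((u : ℤ) * v p * m ^ 2 : ℤ) : ℝ) / (r : ℝ))) := by
    intro u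
    rw [hX, Finset.sum_filter, Finset.sum_product]
    refine Finset.sum_congr rfl fun p _ => ?_
    unfold Tm
    rw [Finset.sum_filter]
    refine Finset.sum_congr rfl fun m _ => ?_
    rw [mul_assoc]
  have h2 := mex l r X (fun x => a x.1 x.2) (fun x => v x.1 * x.2 ^ 2) hr
  have h3 : ∑ x ∈ (Fintype.piFinset (fun _ : Fin (2 * l) => X)).filter
      (fun x => (r : ℤ) ∣ ∑ i, sg l i * (v (x i).1 * (x i).2 ^ 2)), ∏ i, ‖a (x i).1 (x i).2‖ =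
      ∑ p ∈ Fintype.piFinset (fun _ : Fin (2 * l) => S),
        ∑ m ∈ (Fintype.piFinset (fun i => Tm M (p i))).filter
          (fun m => (r : ℤ) ∣ ∑ i, sg l i * (v (p i) * m i ^ 2)), ∏ i, ‖a (p i) (m i)‖ := by
    rw [Finset.sum_sigma']
    refine Finset.sum_nbij' (fun x => ⟨fun i => (x i).1, fun i => (x i).2⟩)
      (fun y => fun i => (y.1 i, y.2 i)) ?_ ?_ ?_ ?_ ?_
    · intro x hx
      rw [Finset.mem_filter, Fintype.mem_piFinset] at hx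
      rw [Finset.mem_sigma, Finset.mem_filter, Fintype.mem_piFinset, Fintype.mem_piFinset]
      exact ⟨fun i => ((hmem (x i)).1 (hx.1 i)).1, fun i => ((hmem (x i)).1 (hx.1 i)).2, hx.2⟩
    · intro y hy
      rw [Finset.mem_sigma, Finset.mem_filter, Fintype.mem_piFinset, Fintype.mem_piFinset] at hy
      rw [Finset.mem_filter, Fintype.mem_piFinset]
      exact ⟨fun i => (hmem _).2 ⟨hy.1 i, hy.2.1 i⟩, hy.2.2⟩
    · intro x _
      rfl
    · intro y _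
      rfl
    · intro x _
      rfl
  have h4 : ∑ p ∈ Fintype.piFinset (fun _ : Fin (2 * l) => S),
        ∑ m ∈ (Fintype.piFinset (fun i => Tm M (p i))).filter
          (fun m => (r : ℤ) ∣ ∑ i, sg l i * (v (p i) * m i ^ 2)), ∏ i, ‖a (p i) (m i)‖ ≤
      ∑ p ∈ Fintype.piFinset (fun _ : Fin (2 * l) => S),
        (if ∀ i, ∃ k, k ≠ i ∧ p k = p i then
          (A₂ * K) ^ (Finset.univ.image p).card * (A₁ ^ 2) ^ (l - (Finset.univ.image p).card)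
        else 0) := by
    refine Finset.sum_le_sum fun p hp => ?_
    rw [Fintype.mem_piFinset] at hp
    exact mtp l r M P₀ p v (fun q m => ‖a q m‖) A₁ A₂ K (fun i => hS (p i) (hp i))
      (fun q m => norm_nonneg _) hsize
  have h5 := mct l S (A₂ * K) (A₁ ^ 2) (mul_nonneg hA hK) (sq_nonneg A₁)
  have hr0 : (0 : ℝ) ≤ (r : ℝ) := Nat.cast_nonneg r
  calc ∑ u ∈ Finset.range r, ‖∑ p ∈ S, ∑ m ∈ Tm M p,
          a p m * ee (-((((u : ℤ) * v p * m ^ 2 : ℤ) : ℝ) / (r : ℝ)))‖ ^ (2 * l)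
      = ∑ u ∈ Finset.range r, ‖∑ x ∈ X, a x.1 x.2 *
          ee (-((((u : ℤ) * (v x.1 * x.2 ^ 2) : ℤ) : ℝ) / (r : ℝ)))‖ ^ (2 * l) :=
        Finset.sum_congr rfl fun u _ => by rw [h1]
    _ ≤ (r : ℝ) * ∑ x ∈ (Fintype.piFinset (fun _ : Fin (2 * l) => X)).filter
        (fun x => (r : ℤ) ∣ ∑ i, sg l i * (v (x i).1 * (x i).2 ^ 2)),
          ∏ i, ‖a (x i).1 (x i).2‖ := h2
    _ ≤ (r : ℝ) * (((2 * l : ℕ) : ℝ) ^ (2 * l) * ((S.card : ℝ) * (A₂ * K) + A₁ ^ 2) ^ l) := by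
        refine mul_le_mul_of_nonneg_left ?_ hr0
        rw [h3]
        exact h4.trans h5
    _ = ((2 * l : ℕ) : ℝ) ^ (2 * l) * (r : ℝ) *
          ((S.card : ℝ) * (A₂ * K) + A₁ ^ 2) ^ l := by ring

end Pool.Agent.K4W.H64
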